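import Mathlib
import Pool.Agent.MP_ddaf7c_pr.Defs
import Pool.Agent.MP_ddaf7c_pr.A.Most
import Pool.Agent.MP_ddaf7c_pr.A.Small

set_option autoImplicit false

namespace Pool.Agent.Results.MP_ddaf7c_pr.CompleteAll

open Pool.Agent.MP_ddaf7c_pr

theorem result : ∀ N : ℕ, 2 ≤ N → Even N →
    pMST (SimpleGraph.completeGraph (Fin N)) ≤ pUST (SimpleGraph.completeGraph (Fin N)) := by
  intro N h2 he
  obtain ⟨n, rfl⟩ : ∃ n, N = 2 * n := he.two_dvd
  exact A.all_of (A.small K.pder A.cmp) n (by omega)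

end Pool.Agent.Results.MP_ddaf7c_pr.CompleteAll
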