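import Mathlib
import Pool.Agent.MP_ddaf7c_pr.Defs
import Pool.Agent.MP_ddaf7c_pr.LadderMST

set_option autoImplicit false

namespace Pool.Agent.Results.MP_ddaf7c_pr.GridCounter

open Pool.Agent.MP_ddaf7c_pr SimpleGraph

theorem result : pUST (pathGraph 2 □ pathGraph 4) < pMST (pathGraph 2 □ pathGraph 4) :=
  calc pUST grid = 11 / 14 := pUST_grid
    _ < 248 / 315 := by norm_num
    _ ≤ pMST grid := pMST_grid

end Pool.Agent.Results.MP_ddaf7c_pr.GridCounter
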